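import Pool.Agent.V11288.LZ.Part

/-! Derivatives at `0` of the partial zeta functions of an abelian extension as limits of explicit sums
over primes: the general form, for a finite or infinite set `S` of finite primes. -/

set_option autoImplicit false

namespace Pool.Agent.H24Stark

open Filter Topology Set NumberField IsDedekindDomain Pool.Agent.V11288.LZ

variable {K : Type} [Field K] [NumberField K] {G : Type} [CommGroup G]

/-- `Z(s)/s → z` for `s → 0`. -/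
def DerivZero (Z : ℂ → ℂ) (z : ℂ) : Prop := Tendsto (fun s : ℂ => Z s / s) (𝓝[≠] 0) (𝓝 z)

/-- `e^{iγu} / Γ(1 + u)`. -/
noncomputable def weight (γ u : ℝ) : ℂ :=
  Complex.exp ((γ * u : ℝ) * Complex.I) / (Real.Gamma (1 + u) : ℂ)

/-- The term of `W_χ(X)` at `(v, k)`. -/
noncomputable def term (cls : Ideal (𝓞 K) → G) (χ : G →* ℂˣ) (γ X : ℝ)
    (v : HeightOneSpectrum (𝓞 K)) (k : ℕ) : ℂ :=
  ((χ (cls v.asIdeal) : ℂˣ) : ℂ) ^ k / k *
    weight γ (k * Real.log (Ideal.absNorm v.asIdeal) / Real.log X)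

/-- `W_χ(X)`, the sum over the primes `v ∉ S` and `k ≥ 1` (here `k = x.2 + 1`). -/
noncomputable def W (S : Set (HeightOneSpectrum (𝓞 K))) (cls : Ideal (𝓞 K) → G) (χ : G →* ℂˣ)
    (γ X : ℝ) : ℂ :=
  ∑' x : {v : HeightOneSpectrum (𝓞 K) // v ∉ S} × ℕ, term cls χ γ X x.1.1 (x.2 + 1)

/-- `E_g(X) = |G|⁻¹ ∑_χ χ(g⁻¹) exp W_χ(X)`. -/
noncomputable def E (S : Set (HeightOneSpectrum (𝓞 K))) (cls : Ideal (𝓞 K) → G) (γ X : ℝ)
    (g : G) : ℂ :=
  (∑ᶠ χ : G →* ℂˣ, ((χ g⁻¹ : ℂˣ) : ℂ) * Complex.exp (W S cls χ γ X)) / Nat.card G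

/-- `Λ_γ = ∫_0^∞ (e^{-t} - e^{iγt} / Γ(1 + t)) dt / t`. -/
noncomputable def Lam (γ : ℝ) : ℂ := ∫ t in Ioi (0 : ℝ),
  (Complex.exp (-(t : ℂ)) - Complex.exp ((γ * t : ℝ) * Complex.I) * ((Real.Gamma (1 + t))⁻¹ : ℝ)) / t

theorem term_eq (cls : Ideal (𝓞 K) → G) (χ : G →* ℂˣ) (γ X : ℝ) (v : HeightOneSpectrum (𝓞 K))
    (k : ℕ) : cterm cls 0 χ γ X v k = term cls χ γ X v k := by
  unfold cterm term weight wt
  rw [Real.rpow_zero, Complex.ofReal_one, one_pow, mul_one]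

theorem W_eq (S : Set (HeightOneSpectrum (𝓞 K))) (cls : Ideal (𝓞 K) → G) (χ : G →* ℂˣ) (γ X : ℝ) :
    cW S cls 0 χ γ X = W S cls χ γ X :=
  tsum_congr fun x => term_eq cls χ γ X x.1.1 (x.2 + 1)

theorem E_eq [Finite G] (S : Set (HeightOneSpectrum (𝓞 K))) (cls : Ideal (𝓞 K) → G) (γ X : ℝ)
    (g : G) : dftinv (fun χ => Complex.exp (cW S cls 0 χ γ X)) g = E S cls γ X g := by
  unfold dftinv E
  simp only [W_eq]

/-- **The general theorem.**  `l g` are real numbers, `m ≠ 0`: all `Z_g` vanish at `0` with derivative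
`-l_g/m` if and only if `(log X) E_g(X) → -e^{Λ_γ} l_g/m`, and in this case
`exp(-m e^{-Λ_γ} (log X) E_g(X)) = e^{l_g} + O(1/log X)`. -/
theorem main [Finite G] {S : Set (HeightOneSpectrum (𝓞 K))} {cls : Ideal (𝓞 K) → G}
    (hc : ∀ 𝔞 𝔟, PrimeTo S 𝔞 → PrimeTo S 𝔟 → cls (𝔞 * 𝔟) = cls 𝔞 * cls 𝔟) {Z : G → ℂ → ℂ}
    (hm : ∀ g, ∀ x ∈ Icc (0 : ℝ) 1, MeromorphicAt (Z g) (x : ℂ))
    (hZ : ∀ g, ∀ s : ℂ, 1 < s.re → Z g s = psum' S cls g s) {γ : ℝ} (hγ : Real.pi / 2 < γ)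
    (m : ℝ) (hm0 : m ≠ 0) (l : G → ℝ) :
    ((∀ g, DerivZero (Z g) (-((l g : ℂ) / m))) ↔
      ∀ g, Tendsto (fun X : ℝ => Real.log X * E S cls γ X g) atTop
        (𝓝 (-(Complex.exp (Lam γ) * (l g / m))))) ∧
    ((∀ g, DerivZero (Z g) (-((l g : ℂ) / m))) →
      ∀ g, (fun X : ℝ => Complex.exp (-m * Complex.exp (-Lam γ) * (Real.log X * E S cls γ X g)) -
        Real.exp (l g)) =O[atTop] (fun X : ℝ => 1 / Real.log X)) := by
  have hm1 : (m : ℂ) ≠ 0 := by exact_mod_cast hm0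
  set z : G → ℂ := fun g => -((l g : ℂ) / m) with hz
  have h0 : (∀ g, DerivZero (Z g) (z g)) ↔
      ∀ g, Tendsto (fun s : ℂ => Z g s / (s - (0 : ℝ)) ^ (1 : ℤ)) (𝓝[≠] ((0 : ℝ) : ℂ)) (𝓝 (z g)) := by
    refine forall_congr' fun g => ?_
    unfold DerivZero
    simp
  obtain ⟨h1, h2⟩ := partial_main (S := S) (cls := cls) (ζ := Z) hc 0 hm hZ hγ 1 z
  simp only [E_eq, zpow_one, Int.cast_one, one_mul] at h1 h2
  have hlim : ∀ g, Complex.exp (Pool.Agent.W187.UR.Lam γ) * z g =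
      -(Complex.exp (Lam γ) * (l g / m)) := by
    intro g
    rw [hz]
    show Complex.exp (Lam γ) * -((l g : ℂ) / m) = _
    ring
  simp only [hlim] at h1 h2
  simp only [zpow_one] at h0
  refine ⟨h0.trans h1, fun h g => ?_⟩
  have h3 := h2 (h0.1 h) g
  have h4 : ∀ X : ℝ, Complex.exp (-m * Complex.exp (-Lam γ) * (Real.log X * E S cls γ X g)) -
      Real.exp (l g) =
      Real.exp (l g) * (Complex.exp (-m * Complex.exp (-Lam γ) * (Real.log X * E S cls γ X g -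
        -(Complex.exp (Lam γ) * (l g / m)))) - 1) := by
    intro X
    rw [Complex.ofReal_exp, mul_sub, mul_one, ← Complex.exp_add]
    congr 2
    have h6 : Complex.exp (-Lam γ) * Complex.exp (Lam γ) = 1 := by
      rw [← Complex.exp_add, neg_add_cancel, Complex.exp_zero]
    have h7 : (m : ℂ) * ((l g : ℂ) / m) = l g := by
      field_simp
    linear_combination (l g : ℂ) * h6 + Complex.exp (-Lam γ) * Complex.exp (Lam γ) * h7
  refine Asymptotics.IsBigO.congr_left ?_ fun X => (h4 X).symm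
  refine Asymptotics.IsBigO.const_mul_left ?_ _
  have h5 : Tendsto (fun X : ℝ => -m * Complex.exp (-Lam γ) * (Real.log X * E S cls γ X g -
      -(Complex.exp (Lam γ) * (l g / m)))) atTop (𝓝 0) := by
    have h6 := (h3.trans_tendsto (tendsto_const_nhds.div_atTop Real.tendsto_log_atTop)).const_mul
      (-m * Complex.exp (-Lam γ))
    rw [mul_zero] at h6
    exact h6
  refine Asymptotics.IsBigO.trans (g := fun X : ℝ => -m * Complex.exp (-Lam γ) *
    (Real.log X * E S cls γ X g - -(Complex.exp (Lam γ) * (l g / m)))) ?_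
    (h3.const_mul_left _)
  refine Asymptotics.IsBigO.of_bound 2 ?_
  filter_upwards [h5.norm.eventually (eventually_le_nhds (b := (1 : ℝ)) (by simp))] with X hX
  exact Complex.norm_exp_sub_one_le hX

end Pool.Agent.H24Stark
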